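import Pool.Agent.X294.OrbitHt

set_option autoImplicit false

/-!
# Heights on geometric quotients and minimal heights in orbits

MP_216eb3_nt, Q1 (and Q2, which is a special case): for a morphism `π : X → Y` of quasi-projective
varieties over `Q̄` whose fibres are the orbits of a group `G` acting on `X`, for instance a
geometric quotient `Y = X // G`, the height of `π x` is comparable to the minimal height of the
points in the orbit of `x`.
-/

namespace Pool.Agent.Results.MP_216eb3_nt.OrbitMinimum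

open MvPolynomial Filter
open Pool.Agent.Helper259.AbsHt

/-- The set of the points of the projective space `ℙⁿ` over the field `Q̄` of algebraic numbers. -/
abbrev Proj (n : ℕ) : Type := Projectivization Qbar (Fin (n + 1) → Qbar)

/-- The absolute logarithmic Weil height of a point of `ℙⁿ`. -/
noncomputable def height {n : ℕ} (P : Proj n) : ℝ := absLogHeight P.rep

/-- The form `F` vanishes at the point `P`. -/
def Vanishes {n : ℕ} (F : MvPolynomial (Fin (n + 1)) Qbar) (P : Proj n) : Prop :=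
  eval P.rep F = 0

/-- `X` is a quasi-projective variety: a locally closed subset of `ℙⁿ`, the set of the points at
which all forms in `S` vanish and not all forms in `T` vanish. -/
def IsQuasiProjective {n : ℕ} (X : Set (Proj n)) : Prop :=
  ∃ S T : Set (MvPolynomial (Fin (n + 1)) Qbar), (∀ F ∈ S, ∃ d, F.IsHomogeneous d) ∧
    (∀ F ∈ T, ∃ d, F.IsHomogeneous d) ∧
    ∀ P, P ∈ X ↔ (∀ F ∈ S, Vanishes F P) ∧ ∃ F ∈ T, ¬ Vanishes F P

/-- `π` is a morphism: for every point `P` of `X` there is a form `G` that does not vanish at `P`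
and there are forms `F_0, …, F_m` of one degree such that `π(Q) = [F_0(Q) : … : F_m(Q)]` at all
points `Q` of `X` at which `G` does not vanish. -/
def IsMorphism {n m : ℕ} {X : Set (Proj n)} {Y : Set (Proj m)} (π : X → Y) : Prop :=
  ∀ P : X, ∃ (e d : ℕ) (G : MvPolynomial (Fin (n + 1)) Qbar)
    (F : Fin (m + 1) → MvPolynomial (Fin (n + 1)) Qbar),
    G.IsHomogeneous e ∧ (∀ i, (F i).IsHomogeneous d) ∧ ¬ Vanishes G P.1 ∧
    ∀ Q : X, ¬ Vanishes G Q.1 → ∃ h : (fun i => eval Q.1.rep (F i)) ≠ 0,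
      (π Q).1 = Projectivization.mk Qbar _ h

/-- `h` is an ample height on the quasi-projective variety `X`: up to a bounded function and a
positive multiple it is the pull-back of the absolute logarithmic Weil height under a projective
embedding of `X` (an isomorphism `ι` of `X` with a quasi-projective variety `X'` in `ℙᴺ`). -/
def IsAmpleHeight {n : ℕ} {X : Set (Proj n)} (h : X → ℝ) : Prop :=
  ∃ (N : ℕ) (X' : Set (Proj N)) (ι : X ≃ X') (c C : ℝ), IsQuasiProjective X' ∧
    IsMorphism ι ∧ IsMorphism ι.symm ∧ 0 < c ∧ ∀ P : X, |h P - c * height (ι P).1| ≤ C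

/-- `A ≍ B` -/
def Comparable {X : Type} (A B : X → ℝ) : Prop :=
  ∃ c₁ c₂ c₃ c₄ : ℝ, 0 < c₁ ∧ 0 < c₂ ∧ ∀ x, c₁ * A x - c₃ ≤ B x ∧ B x ≤ c₂ * A x + c₄

/-! ### Vectors and points -/

theorem height_mk {n : ℕ} (v : Fin (n + 1) → Qbar) (hv : v ≠ 0) :
    height (Projectivization.mk Qbar v hv) = absLogHeight v := by
  obtain ⟨a, ha⟩ := Projectivization.exists_smul_eq_mk_rep Qbar v hv
  unfold height
  rw [← ha]
  exact absLogHeight_smul v a.ne_zero

theorem vanishes_mk {n : ℕ} {F : MvPolynomial (Fin (n + 1)) Qbar} {d : ℕ} (hF : F.IsHomogeneous d)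
    (v : Fin (n + 1) → Qbar) (hv : v ≠ 0) :
    Vanishes F (Projectivization.mk Qbar v hv) ↔ eval v F = 0 := by
  obtain ⟨a, ha⟩ := Projectivization.exists_smul_eq_mk_rep Qbar v hv
  unfold Vanishes
  rw [← ha]
  have h1 : eval (a • v) F = (a : Qbar) ^ d * eval v F :=
    Pool.Agent.X294.OrbitHt.eval_smul_form hF (a : Qbar) v
  rw [h1]
  simp

/-- The values of forms at two vectors of coordinates of a point. -/
theorem chart_mk {n m : ℕ} {F : Fin (m + 1) → MvPolynomial (Fin (n + 1)) Qbar} {d : ℕ}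
    (hF : ∀ i, (F i).IsHomogeneous d) (w : Fin (n + 1) → Qbar) (hw : w ≠ 0)
    (h : (fun i => eval (Projectivization.mk Qbar w hw).rep (F i)) ≠ 0) :
    ∃ h' : (fun i => eval w (F i)) ≠ 0,
      Projectivization.mk Qbar _ h = Projectivization.mk Qbar _ h' := by
  obtain ⟨a, ha⟩ := Projectivization.exists_smul_eq_mk_rep Qbar w hw
  have h1 : ∀ i, eval (Projectivization.mk Qbar w hw).rep (F i) =
      (a : Qbar) ^ d * eval w (F i) := by
    intro i
    rw [← ha]
    exact Pool.Agent.X294.OrbitHt.eval_smul_form (hF i) (a : Qbar) w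
  have h' : (fun i => eval w (F i)) ≠ 0 := by
    intro h0
    apply h
    funext i
    rw [h1, congrFun h0 i]
    simp
  refine ⟨h', ?_⟩
  rw [Projectivization.mk_eq_mk_iff']
  exact ⟨(a : Qbar) ^ d, by
    funext i
    rw [h1]
    rfl⟩

/-- A point has a vector of coordinates one of which is `1`. -/
theorem exists_normal {n : ℕ} (P : Proj n) : ∃ (c : Fin (n + 1)) (v : Fin (n + 1) → Qbar)
    (hv : v ≠ 0), v c = 1 ∧ P = Projectivization.mk Qbar v hv := by
  obtain ⟨c, hc⟩ := Function.ne_iff.mp P.rep_nonzero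
  simp only [Pi.zero_apply] at hc
  refine ⟨c, (P.rep c)⁻¹ • P.rep, smul_ne_zero (inv_ne_zero hc) P.rep_nonzero, ?_, ?_⟩
  · simp [hc]
  · conv_lhs => rw [← P.mk_rep]
    rw [Projectivization.mk_eq_mk_iff']
    exact ⟨P.rep c, by rw [smul_smul, mul_inv_cancel₀ hc, one_smul]⟩

/-- Finitely many charts are enough. -/
theorem finite_charts {n m : ℕ} {X : Set (Proj n)} {Y : Set (Proj m)} (π : X → Y)
    (hπ : IsMorphism π) : ∃ (A : Type) (_ : Fintype A) (e d : A → ℕ)
    (G : A → MvPolynomial (Fin (n + 1)) Qbar)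
    (F : A → Fin (m + 1) → MvPolynomial (Fin (n + 1)) Qbar),
    (∀ a, (G a).IsHomogeneous (e a)) ∧ (∀ a i, (F a i).IsHomogeneous (d a)) ∧
    (∀ P : X, ∃ a, ¬ Vanishes (G a) P.1) ∧
    ∀ a (Q : X), ¬ Vanishes (G a) Q.1 → ∃ h : (fun i => eval Q.1.rep (F a i)) ≠ 0,
      (π Q).1 = Projectivization.mk Qbar _ h := by
  choose e d G F hG hF hP hQ using hπ
  obtain ⟨s, hs, hspan⟩ := (Submodule.fg_span_iff_fg_span_finset_subset (Set.range G)).mp
    (IsNoetherian.noetherian (Submodule.span (MvPolynomial (Fin (n + 1)) Qbar) (Set.range G)))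
  have h1 : ∀ g : s, ∃ P : X, G P = g.1 := fun g => hs g.2
  choose p hp using h1
  refine ⟨s, inferInstance, fun g => e (p g), fun g => d (p g), fun g => G (p g),
    fun g => F (p g), fun g => hG _, fun g => hF _, ?_, fun g => hQ (p g)⟩
  intro P
  by_contra hcon
  push Not at hcon
  apply hP P
  have h2 : Submodule.span (MvPolynomial (Fin (n + 1)) Qbar) (s : Set _) ≤
      RingHom.ker (eval P.1.rep : MvPolynomial (Fin (n + 1)) Qbar →+* Qbar) := by
    rw [Submodule.span_le]
    intro g hg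
    have := hcon ⟨g, hg⟩
    rw [hp] at this
    exact this
  rw [← hspan] at h2
  exact h2 (Submodule.subset_span ⟨P, rfl⟩)

/-- The height of `π x` is bounded in terms of the height of `x`. -/
theorem upper {n m : ℕ} {X : Set (Proj n)} {Y : Set (Proj m)} (π : X → Y)
    (hπ : IsMorphism π) : ∃ C N : ℝ, 0 < N ∧ ∀ x : X, height (π x).1 ≤ C + N * height x.1 := by
  obtain ⟨A, _, e, d, G, F, hG, hF, hcov, hch⟩ := finite_charts π hπ
  choose C hC using fun a => absLogHeight_eval (d a) (F a) (hF a)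
  refine ⟨∑ a, |C a|, ∑ a, (d a : ℝ) + 1, by positivity, fun x => ?_⟩
  obtain ⟨a, ha⟩ := hcov x
  obtain ⟨h, hx⟩ := hch a x ha
  rw [hx, height_mk]
  refine (hC a x.1.rep).trans ?_
  have h1 : C a ≤ ∑ a, |C a| := (le_abs_self _).trans
    (Finset.single_le_sum (f := fun a => |C a|) (fun i _ => abs_nonneg _) (Finset.mem_univ a))
  have h2 : (d a : ℝ) ≤ ∑ a, (d a : ℝ) :=
    Finset.single_le_sum (f := fun a => (d a : ℝ)) (fun i _ => Nat.cast_nonneg _)
      (Finset.mem_univ a)
  have h3 : 0 ≤ height x.1 := absLogHeight_nonneg _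
  have h4 : absLogHeight x.1.rep = height x.1 := rfl
  rw [h4]
  nlinarith

/-- Every point `y` has a preimage of small height. -/
theorem lower {n m : ℕ} {X : Set (Proj n)} {Y : Set (Proj m)} (hX : IsQuasiProjective X)
    (π : X → Y) (hπ : IsMorphism π) (hs : Function.Surjective π) :
    ∃ C : ℝ, ∀ y : Y, ∃ x : X, π x = y ∧ height x.1 ≤ C * (1 + height y.1) := by
  classical
  by_contra hcon
  push Not at hcon
  obtain ⟨A, _, e, d, G, F, hG, hF, hcov, hch⟩ := finite_charts π hπ
  obtain ⟨S, T, hS, hT, hXeq⟩ := hX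
  -- finitely many equations
  obtain ⟨S₀, hS₀, hspan⟩ := (Submodule.fg_span_iff_fg_span_finset_subset S).mp
    (IsNoetherian.noetherian (Submodule.span (MvPolynomial (Fin (n + 1)) Qbar) S))
  obtain ⟨T₀, hT₀, hspanT⟩ := (Submodule.fg_span_iff_fg_span_finset_subset T).mp
    (IsNoetherian.noetherian (Submodule.span (MvPolynomial (Fin (n + 1)) Qbar) T))
  have hS₀' : ∀ w : Fin (n + 1) → Qbar, (∀ f ∈ S₀, eval w f = 0) → ∀ f ∈ S, eval w f = 0 := by
    intro w hw f hf
    have h2 : Submodule.span (MvPolynomial (Fin (n + 1)) Qbar) (S₀ : Set _) ≤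
        RingHom.ker (eval w : MvPolynomial (Fin (n + 1)) Qbar →+* Qbar) := by
      rw [Submodule.span_le]
      exact fun g hg => hw g hg
    rw [← hspan] at h2
    exact h2 (Submodule.subset_span hf)
  have hT₀' : ∀ w : Fin (n + 1) → Qbar, (∃ f ∈ T, eval w f ≠ 0) → ∃ f ∈ T₀, eval w f ≠ 0 := by
    rintro w ⟨f, hf, hne⟩
    by_contra hcon'
    push Not at hcon'
    have h2 : Submodule.span (MvPolynomial (Fin (n + 1)) Qbar) (T₀ : Set _) ≤
        RingHom.ker (eval w : MvPolynomial (Fin (n + 1)) Qbar →+* Qbar) := by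
      rw [Submodule.span_le]
      exact fun g hg => hcon' g hg
    rw [← hspanT] at h2
    exact hne (h2 (Submodule.subset_span hf))
  -- a bad sequence
  choose y hy using fun j : ℕ => hcon j
  choose x hx using fun j => hs (y j)
  choose cv v hv0 hv1 hv using fun j => exists_normal (y j).1
  choose cu u hu0 hu1 hu using fun j => exists_normal (x j).1
  have hchart : ∀ j, ∃ a, eval (u j) (G a) ≠ 0 := by
    intro j
    obtain ⟨a, ha⟩ := hcov (x j)
    rw [hu j, vanishes_mk (hG a)] at ha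
    exact ⟨a, ha⟩
  have hopen : ∀ j, ∃ t : T₀, eval (u j) t.1 ≠ 0 := by
    intro j
    have h1 := ((hXeq (x j).1).mp (x j).2).2
    obtain ⟨f, hf, hne⟩ := h1
    obtain ⟨k, hk⟩ := hT f hf
    rw [hu j, vanishes_mk hk] at hne
    obtain ⟨g, hg, hgne⟩ := hT₀' (u j) ⟨f, hf, hne⟩
    exact ⟨⟨g, hg⟩, hgne⟩
  let U : Ultrafilter ℕ := hyperfilter ℕ
  obtain ⟨⟨⟨a, t⟩, cu', cv'⟩, hev⟩ := Pool.Agent.X294.OrbitHt.eventually_exists_const U
    (A := (A × T₀) × (Fin (n + 1) × Fin (m + 1)))
    (fun z j => (eval (u j) (G z.1.1) ≠ 0 ∧ eval (u j) z.1.2.1 ≠ 0) ∧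
      u j z.2.1 = 1 ∧ v j z.2.2 = 1)
    (fun j => by
      obtain ⟨a, ha⟩ := hchart j
      obtain ⟨t, ht⟩ := hopen j
      exact ⟨((a, t), (cu j, cv j)), ⟨ha, ht⟩, hu1 j, hv1 j⟩)
  -- specialise
  let ru : MvPolynomial (Fin (n + 1)) Qbar →ₐ[Qbar]
      MvPolynomial (Fin (n + 1) ⊕ Fin (m + 1)) Qbar := rename Sum.inl
  have hru : ∀ (w : Fin (n + 1) → Qbar) (z : Fin (m + 1) → Qbar) (E),
      eval (Sum.elim w z) (ru E) = eval w E := by
    intro w z E
    show eval _ (rename _ E) = _
    rw [eval_rename]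
    rfl
  obtain ⟨w, P, hw1, hw2, hw3⟩ := Pool.Agent.X294.Ultra.spec U (fun i j => u j i)
    (fun i j => v j i) (ru (G a * t.1)) (by
      filter_upwards [hev] with j hj
      rw [hru, map_mul]
      exact mul_ne_zero hj.1.1 hj.1.2)
  -- equations
  have e1 : ∀ f ∈ S₀, ∀ᶠ j in (U : Filter ℕ), eval (fun i => w i j) f = 0 := by
    intro f hf
    have := hw1 (ru f) (Eventually.of_forall fun j => by
      rw [hru]
      have h1 := ((hXeq (x j).1).mp (x j).2).1 f (hS₀ hf)
      obtain ⟨k, hk⟩ := hS f (hS₀ hf)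
      rw [hu j, vanishes_mk hk] at h1
      exact h1)
    simpa only [hru] using this
  have e1' : ∀ᶠ j in (U : Filter ℕ), ∀ f : S₀, eval (fun i => w i j) f.1 = 0 :=
    eventually_all.mpr fun f => e1 f.1 f.2
  have e2 : ∀ᶠ j in (U : Filter ℕ), w cu' j = 1 := by
    have := hw1 (MvPolynomial.X (Sum.inl cu') - 1) (by
      filter_upwards [hev] with j hj
      rw [map_sub, eval_X, Sum.elim_inl, hj.2.1, map_one, sub_self])
    filter_upwards [this] with j hj
    rw [map_sub, eval_X, Sum.elim_inl, map_one, sub_eq_zero] at hj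
    exact hj
  have e3 : ∀ᶠ j in (U : Filter ℕ), ∀ i l : Fin (m + 1),
      eval (fun i => w i j) (F a i) * v j l = eval (fun i => w i j) (F a l) * v j i := by
    refine eventually_all.mpr fun i => eventually_all.mpr fun l => ?_
    have := hw1 (ru (F a i) * MvPolynomial.X (Sum.inr l) -
      ru (F a l) * MvPolynomial.X (Sum.inr i)) (by
      filter_upwards [hev] with j hj
      rw [map_sub, map_mul, map_mul, hru, hru, eval_X, eval_X, Sum.elim_inr, Sum.elim_inr,
        sub_eq_zero]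
      have hne : ¬ Vanishes (G a) (x j).1 := by
        rw [hu j, vanishes_mk (hG a)]
        exact hj.1.1
      obtain ⟨h, hx'⟩ := hch a (x j) hne
      rw [hx j, hv j] at hx'
      have h2 := hu j
      generalize (x j).1 = Q at h h2 hx'
      subst h2
      obtain ⟨h', heq⟩ := chart_mk (hF a) (u j) (hu0 j) h
      rw [heq, eq_comm, Pool.Agent.X294.OrbitHt.mk_eq_mk_iff_cross] at hx'
      exact hx' i l)
    filter_upwards [this] with j hj
    rw [map_sub, map_mul, map_mul, hru, hru, eval_X, eval_X, Sum.elim_inr, Sum.elim_inr,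
      sub_eq_zero] at hj
    exact hj
  -- heights
  choose CP NP hP using fun i => Pool.Agent.X294.OrbitHt.root_bound (P i) cv'
  have e4 : ∀ᶠ j in (U : Filter ℕ), absLogHeight (fun i => w i j) ≤
      (∑ i, |CP i| + ∑ i, (NP i : ℝ)) * (1 + height (y j).1) := by
    have h3 : ∀ᶠ j in (U : Filter ℕ), ∀ i, (P i).map (eval fun t => v j t) ≠ 0 ∧
        ((P i).map (eval fun t => v j t)).eval (w i j) = 0 := eventually_all.mpr hw3
    filter_upwards [h3, hev] with j hj hj2
    have h4 : height (y j).1 = absLogHeight (v j) := by rw [hv j, height_mk]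
    have h5 := absLogHeight_le_sum (fun i => w i j)
    refine h5.trans ?_
    have h6 : ∀ i, absLogHeight ![1, w i j] ≤ |CP i| + NP i * height (y j).1 := by
      intro i
      have := hP i (v j) hj2.2.2 (w i j) (hj i).1 (hj i).2
      rw [h4]
      have := le_abs_self (CP i)
      linarith
    have h7 : 0 ≤ height (y j).1 := absLogHeight_nonneg _
    have h8 : 0 ≤ ∑ i, |CP i| := Finset.sum_nonneg fun _ _ => abs_nonneg _
    have h9 : (0 : ℝ) ≤ ∑ i, (NP i : ℝ) := Finset.sum_nonneg fun _ _ => Nat.cast_nonneg _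
    calc ∑ i, absLogHeight ![1, w i j] ≤ ∑ i, (|CP i| + NP i * height (y j).1) :=
          Finset.sum_le_sum fun i _ => h6 i
      _ = ∑ i, |CP i| + (∑ i, (NP i : ℝ)) * height (y j).1 := by
          rw [Finset.sum_add_distrib, Finset.sum_mul]
      _ ≤ _ := by nlinarith
  -- the contradiction
  have e5 : ∀ᶠ j : ℕ in (U : Filter ℕ), (∑ i, |CP i| + ∑ i, (NP i : ℝ)) ≤ (j : ℝ) := by
    obtain ⟨M, hM⟩ := exists_nat_ge (∑ i, |CP i| + ∑ i, (NP i : ℝ))
    have h1 : ∀ᶠ j in atTop, M ≤ j := eventually_ge_atTop M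
    have h2 : ∀ᶠ j in (U : Filter ℕ), M ≤ j := by
      have := Nat.hyperfilter_le_atTop
      exact this h1
    filter_upwards [h2] with j hj
    exact hM.trans (by exact_mod_cast hj)
  obtain ⟨j, h1, h2, h3, h4, h5, h6, h7⟩ :=
    (e1'.and (e2.and (e3.and (e4.and (e5.and (hw2.and hev)))))).exists
  set ω : Fin (n + 1) → Qbar := fun i => w i j with hω
  have hω0 : ω ≠ 0 := by
    intro h
    have := congrFun h cu'
    simp only [hω, h2, Pi.zero_apply] at this
    exact one_ne_zero this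
  have h6' : eval ω (G a) ≠ 0 ∧ eval ω t.1 ≠ 0 := by
    rw [hru, map_mul] at h6
    exact ⟨left_ne_zero_of_mul h6, right_ne_zero_of_mul h6⟩
  have hmem : Projectivization.mk Qbar ω hω0 ∈ X := by
    rw [hXeq]
    refine ⟨fun f hf => ?_, t.1, hT₀ t.2, ?_⟩
    · obtain ⟨k, hk⟩ := hS f hf
      rw [vanishes_mk hk]
      exact hS₀' ω (fun g hg => h1 ⟨g, hg⟩) f hf
    · obtain ⟨k, hk⟩ := hT t.1 (hT₀ t.2)
      rw [vanishes_mk hk]
      exact h6'.2
  have hπx : π ⟨_, hmem⟩ = y j := by
    apply Subtype.ext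
    obtain ⟨h, hx'⟩ := hch a ⟨_, hmem⟩ (by rw [vanishes_mk (hG a)]; exact h6'.1)
    obtain ⟨h', heq⟩ := chart_mk (hF a) ω hω0 h
    rw [hx', hv j, heq, Pool.Agent.X294.OrbitHt.mk_eq_mk_iff_cross]
    exact fun i l => h3 i l
  have h8 := hy j ⟨_, hmem⟩ hπx
  rw [height_mk] at h8
  have h9 : 0 ≤ height (y j).1 := absLogHeight_nonneg _
  have h10 : (∑ i, |CP i| + ∑ i, (NP i : ℝ)) * (1 + height (y j).1) ≤
      (j : ℝ) * (1 + height (y j).1) := mul_le_mul_of_nonneg_right h5 (by linarith)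
  linarith

/-- Ample heights are comparable to the height for the given embedding. -/
theorem ample_bounds {n : ℕ} {X : Set (Proj n)} {h : X → ℝ} (hh : IsAmpleHeight h) :
    ∃ p₁ p₂ q : ℝ, 0 < p₁ ∧ 0 < p₂ ∧ ∀ x : X, p₁ * height x.1 - q ≤ h x ∧
      h x ≤ p₂ * height x.1 + q := by
  obtain ⟨N, X', ι, c, C, -, h1, h2, hc, hb⟩ := hh
  obtain ⟨C1, N1, hN1, hup1⟩ := upper ι h1
  obtain ⟨C2, N2, hN2, hup2⟩ := upper ι.symm h2
  refine ⟨c / N2, c * N1, c * |C1| + c / N2 * |C2| + C, by positivity, by positivity,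
    fun x => ⟨?_, ?_⟩⟩
  · have h3 := hup2 (ι x)
    rw [Equiv.symm_apply_apply] at h3
    have h4 := (abs_le.mp (hb x)).1
    have h5 : (height x.1 - |C2|) / N2 ≤ height (ι x).1 := by
      rw [div_le_iff₀ hN2]
      have := le_abs_self C2
      linarith
    have h6 : c * ((height x.1 - |C2|) / N2) ≤ c * height (ι x).1 :=
      mul_le_mul_of_nonneg_left h5 hc.le
    have h7 : c * ((height x.1 - |C2|) / N2) = c / N2 * height x.1 - c / N2 * |C2| := by
      field_simp
    have h8 : 0 ≤ c * |C1| := by positivity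
    linarith
  · have h3 := hup1 x
    have h4 := (abs_le.mp (hb x)).2
    have h6 : c * height (ι x).1 ≤ c * (|C1| + N1 * height x.1) := by
      refine mul_le_mul_of_nonneg_left ?_ hc.le
      have := le_abs_self C1
      linarith
    have h8 : 0 ≤ c / N2 * |C2| := by positivity
    nlinarith

/-- **Theorem.** Let `X` and `Y` be quasi-projective varieties over `Q̄`, with an action of a group
`G` on `X`, and let `π : X → Y` be a surjective morphism whose fibres are the orbits of `G`; for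
instance, let `π : X → Y = X // G` be a geometric quotient. Then
`h_Y(π(x)) ≍ inf_{g ∈ G} h_X(g x)` on `X` for all ample heights `h_X` on `X` and `h_Y` on `Y`. -/
theorem result {n m : ℕ} (X : Set (Proj n)) (Y : Set (Proj m)) (hX : IsQuasiProjective X)
    (_hY : IsQuasiProjective Y) (G : Type) [Group G] [MulAction G X] (π : X → Y)
    (hπ : IsMorphism π) (hsurj : Function.Surjective π)
    (horb : ∀ x x' : X, π x = π x' ↔ ∃ g : G, g • x = x')
    (h_X : X → ℝ) (h_Y : Y → ℝ) (hXa : IsAmpleHeight h_X) (hYa : IsAmpleHeight h_Y) :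
    Comparable (fun x => h_Y (π x)) (fun x => ⨅ g : G, h_X (g • x)) := by
  obtain ⟨aX, bX, qX, haX, hbX, hX1⟩ := ample_bounds hXa
  obtain ⟨aY, bY, qY, haY, hbY, hY1⟩ := ample_bounds hYa
  obtain ⟨C1, N1, hN1, hup⟩ := upper π hπ
  obtain ⟨C2, hlow⟩ := lower hX π hπ hsurj
  have hinv : ∀ (g : G) (x : X), π (g • x) = π x := fun g x =>
    ((horb x (g • x)).mpr ⟨g, rfl⟩).symm
  have hbd : ∀ x : X, BddBelow (Set.range fun g : G => h_X (g • x)) := by
    intro x
    refine ⟨-qX, ?_⟩
    rintro _ ⟨g, rfl⟩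
    have h1 := (hX1 (g • x)).1
    have h2 : 0 ≤ height (g • x).1 := absLogHeight_nonneg _
    have h3 : 0 ≤ aX * height (g • x).1 := by positivity
    show -qX ≤ h_X (g • x)
    linarith
  refine ⟨aX / (N1 * bY), bX * (|C2| + 1) / aY, aX * (|C1| / N1) + aX / (N1 * bY) * qY + qX,
    bX * (|C2| + 1) * (1 + qY / aY) + qX, by positivity, by positivity, fun x => ⟨?_, ?_⟩⟩
  · refine le_ciInf fun g => ?_
    have h1 := (hX1 (g • x)).1
    have h2 := hup (g • x)
    rw [hinv] at h2
    have h3 := (hY1 (π x)).2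
    have h4 : height (π x).1 / N1 - |C1| / N1 ≤ height (g • x).1 := by
      rw [← sub_div, div_le_iff₀ hN1]
      have := le_abs_self C1
      linarith
    have h5 : (h_Y (π x) - qY) / bY ≤ height (π x).1 := by
      rw [div_le_iff₀ hbY]
      linarith
    have h6 : (h_Y (π x) - qY) / bY / N1 ≤ height (π x).1 / N1 := by gcongr
    have h7 : aX * ((h_Y (π x) - qY) / bY / N1 - |C1| / N1) ≤ aX * height (g • x).1 :=
      mul_le_mul_of_nonneg_left (by linarith) haX.le
    have h8 : aX * ((h_Y (π x) - qY) / bY / N1 - |C1| / N1) =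
        aX / (N1 * bY) * h_Y (π x) - aX / (N1 * bY) * qY - aX * (|C1| / N1) := by
      field_simp
    show aX / (N1 * bY) * h_Y (π x) - _ ≤ h_X (g • x)
    linarith
  · obtain ⟨x', hx', hh⟩ := hlow (π x)
    obtain ⟨g, hg⟩ := (horb x x').mp hx'.symm
    refine (ciInf_le (hbd x) g).trans ?_
    show h_X (g • x) ≤ _
    rw [hg]
    have h1 := (hX1 x').2
    have h3 := (hY1 (π x)).1
    have h5 : height (π x).1 ≤ (h_Y (π x) + qY) / aY := by
      rw [le_div_iff₀ haY]
      linarith
    have h6 : 0 ≤ height (π x).1 := absLogHeight_nonneg _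
    have h7 : height x'.1 ≤ (|C2| + 1) * (1 + height (π x).1) := by
      refine hh.trans (mul_le_mul_of_nonneg_right ?_ (by linarith))
      have := le_abs_self C2
      linarith
    have h8 : bX * height x'.1 ≤ bX * ((|C2| + 1) * (1 + (h_Y (π x) + qY) / aY)) := by
      refine mul_le_mul_of_nonneg_left (h7.trans ?_) hbX.le
      refine mul_le_mul_of_nonneg_left (by linarith) ?_
      positivity
    have h9 : bX * ((|C2| + 1) * (1 + (h_Y (π x) + qY) / aY)) =
        bX * (|C2| + 1) / aY * h_Y (π x) + bX * (|C2| + 1) * (1 + qY / aY) := by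
      field_simp
      ring
    linarith

end Pool.Agent.Results.MP_216eb3_nt.OrbitMinimum
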